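import Mathlib
import Pool.Agent.H.MP_e848aa_gt.A

set_option autoImplicit false

namespace Pool.Agent.H.MP_414e75_gt

open Set Filter Topology Pool.Agent.H.MP_e848aa_gt

variable {X : Type}

def C (F P : Finset X) : Set (Set X) := {s | (∀ x ∈ F, x ∉ s) ∧ ∀ x ∈ P, x ∈ s}

def Gd (D : X → Set X) (E : Set X) : Prop :=
  ∀ y ∈ E, ∀ s ⊆ D y, ∃ F P, s ∈ C F P ∧ {x | x ∈ E ∧ D x ∈ C F P}.Finite

def Lg (S : Set (Finset X)) : Prop := ∀ K : Set X, K.Countable → ∃ p ∈ S, ∀ x ∈ p, x ∉ K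

theorem key {D : X → Set X} (hD : ∀ x, (D x).Countable) (k : ℕ) : ∀ S : Set (Finset X),
    (∀ p ∈ S, p.card ≤ k) → Lg S →
    ∃ A ⊆ S, A.Countable ∧ ∀ E, Gd D E → ∃ p ∈ A, ∀ x ∈ p, x ∉ E := by
  classical
  induction k with
  | zero =>
    intro S h1 h2
    obtain ⟨p, hp, -⟩ := h2 ∅ countable_empty
    refine ⟨{p}, singleton_subset_iff.2 hp, countable_singleton _, fun E _ => ⟨p, rfl, ?_⟩⟩
    rw [Finset.card_eq_zero.1 (Nat.le_zero.1 (h1 p hp))]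
    simp
  | succ k ih =>
    intro S h1 h2
    have h3 : ∀ F P G : Finset X, ∃ (A : Set (Finset X)) (K : Set X), A ⊆ S ∧ A.Countable ∧
        K.Countable ∧ ∀ q ∈ S, ∀ y ∈ q, D y ∈ C F P ∧ y ∉ G → (∀ x ∈ q, x ∉ K) → ∀ E, Gd D E →
          ∃ p ∈ A, ∃ z ∈ p, (D z ∈ C F P ∧ z ∉ G) ∧ ∀ x ∈ p, x ≠ z → x ∉ E := fun F P G => by
      by_cases h : Lg {r | ∃ p ∈ S, ∃ z ∈ p, (D z ∈ C F P ∧ z ∉ G) ∧ p.erase z = r}
      · obtain ⟨A, a1, a2, a3⟩ := ih _ (by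
          rintro _ ⟨p, p1, z, z1, -, rfl⟩
          have := h1 p p1
          rw [Finset.card_erase_of_mem z1]
          omega) h
        choose! p p1 p2 using a1
        refine ⟨p '' A, ∅, image_subset_iff.2 p1, a2.image _, countable_empty,
          fun _ _ _ _ _ _ E hE => ?_⟩
        obtain ⟨r, r1, r2⟩ := a3 E hE
        obtain ⟨z, z1, z2, z3⟩ := p2 r1
        exact ⟨_, mem_image_of_mem _ r1, z, z1, z2, fun x x1 x2 =>
          r2 x (z3 ▸ Finset.mem_erase.2 ⟨x2, x1⟩)⟩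
      · simp only [Lg, not_forall] at h
        obtain ⟨K, c1, c2⟩ := h
        exact ⟨∅, K, empty_subset _, countable_empty, c1, fun q q1 y y1 y2 h => absurd
          ⟨_, ⟨q, q1, y, y1, y2, rfl⟩, fun x hx => h x (Finset.mem_of_mem_erase hx)⟩ c2⟩
    choose A K a1 a2 a3 a4 using h3
    obtain ⟨H, H1, -, H3, -⟩ := hull (fun s : Finset X => (⋃ x ∈ s, D x) ∪ ⋃ F ∈ s.powerset,
      ⋃ P ∈ s.powerset, ⋃ G ∈ s.powerset, K F P G ∪ ⋃ p ∈ A F P G, (p : Set X)) fun s =>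
        (s.countable_toSet.biUnion fun x _ => hD x).union (s.powerset.countable_toSet.biUnion
          fun F _ => s.powerset.countable_toSet.biUnion fun P _ =>
            s.powerset.countable_toSet.biUnion fun G _ => (a3 F P G).union
              ((a2 F P G).biUnion fun p _ => p.countable_toSet))
    obtain ⟨M, hM, m1, m2⟩ : ∃ M : Set X, M.Countable ∧ (∀ x ∈ M, D x ⊆ M) ∧
        ∀ F P G : Finset X, ↑F ⊆ M → ↑P ⊆ M → ↑G ⊆ M →
          K F P G ∪ ⋃ p ∈ A F P G, (p : Set X) ⊆ M :=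
      ⟨H ∅, H1 ∅ countable_empty, fun x hx w hw => H3 ∅ {x} (by simpa using hx)
        (Or.inl (mem_biUnion (Finset.mem_singleton_self x) hw)), fun F P G f1 f2 f3 x hx =>
          H3 ∅ (F ∪ P ∪ G) (by simp [f1, f2, f3]) (Or.inr (mem_biUnion (x := F) (Finset.mem_powerset.2
            (Finset.subset_union_left.trans Finset.subset_union_left)) (mem_biUnion (x := P) (Finset.mem_powerset.2
              (Finset.subset_union_right.trans Finset.subset_union_left))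
                (mem_biUnion (x := G) (Finset.mem_powerset.2 Finset.subset_union_right) hx))))⟩
    obtain ⟨q, q1, q2⟩ := h2 _ hM
    refine ⟨insert q (⋃ F ∈ {F : Finset X | ↑F ⊆ M}, ⋃ P ∈ {F : Finset X | ↑F ⊆ M},
      ⋃ G ∈ {F : Finset X | ↑F ⊆ M}, A F P G), insert_subset q1 (iUnion₂_subset fun F _ =>
        iUnion₂_subset fun P _ => iUnion₂_subset fun G _ => a1 F P G), ((cfin hM).biUnion
          fun F _ => (cfin hM).biUnion fun P _ => (cfin hM).biUnion fun G _ => a2 F P G).insert _,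
      fun E hE => ?_⟩
    by_cases h : ∀ x ∈ q, x ∉ E
    · exact ⟨q, Or.inl rfl, h⟩
    push Not at h
    obtain ⟨y, y1, y2⟩ := h
    obtain ⟨F, P, y3, y4⟩ := hE y y2 (D y ∩ M) inter_subset_left
    have f1 : ↑(F.filter (· ∈ M)) ⊆ M := fun x hx => (Finset.mem_filter.1 hx).2
    have f2 : ↑P ⊆ M := fun x hx => (y3.2 x hx).2
    have f3 : ↑(y4.toFinset.filter (· ∈ M)) ⊆ M := fun x hx => (Finset.mem_filter.1 hx).2
    have h4 := m2 _ _ _ f1 f2 f3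
    obtain ⟨p, p1, z, z1, z2, z3⟩ := a4 (F.filter (· ∈ M)) P (y4.toFinset.filter (· ∈ M)) q q1 y y1
      ⟨⟨fun x hx h => y3.1 x (Finset.mem_filter.1 hx).1 ⟨h, f1 hx⟩, fun x hx => (y3.2 x hx).1⟩,
        fun h => q2 y y1 (f3 h)⟩ (fun x hx h => q2 x hx (h4 (Or.inl h))) E hE
    have z4 : z ∈ M := h4 (Or.inr (mem_biUnion p1 z1))
    refine ⟨p, Or.inr (mem_biUnion f1 (mem_biUnion f2 (mem_biUnion f3 p1))), fun x hx h => ?_⟩
    obtain rfl : x = z := by_contra fun h5 => z3 x hx h5 h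
    exact z2.2 (Finset.mem_filter.2 ⟨y4.mem_toFinset.2 ⟨h, fun w w1 w2 =>
      z2.1.1 w (Finset.mem_filter.2 ⟨w1, m1 x z4 w2⟩) w2, z2.1.2⟩, z4⟩)

theorem cov {D : X → Set X} (hD : ∀ x, (D x).Countable) (s : Set (Set X))
    (h1 : ∀ t ∈ s, Gd D t) (h2 : ∀ t ∈ s, ∀ u ⊆ t, u ∈ s) (F P : Set X → Finset X)
    (h : ∀ t ∈ s, t ∈ C (F t) (P t)) :
    ∃ A ⊆ s, A.Countable ∧ s ⊆ ⋃ t ∈ A, C (F t) (P t) := by
  classical
  have h3 : ∀ (r Q : Finset X) (n : ℕ), ∃ (A : Set (Set X)) (K : Set X), A ⊆ s ∧ A.Countable ∧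
      K.Countable ∧ ∀ t ∈ s, (F t).card = n ∧ P t = Q → (∀ x ∈ F t, x ∉ r → x ∉ K) →
        ∀ E, Gd D E → ∃ a ∈ A, P a = Q ∧ ∀ x ∈ F a, x ∉ r → x ∉ E := fun r Q n => by
    by_cases h : Lg {p | ∃ t ∈ s, ((F t).card = n ∧ P t = Q) ∧ F t \ r = p}
    · obtain ⟨A, a1, a2, a3⟩ := key hD n _ (by
        rintro _ ⟨t, -, ⟨rfl, -⟩, rfl⟩
        exact Finset.card_le_card Finset.sdiff_subset) h
      choose! t t1 t2 t3 using a1
      refine ⟨t '' A, ∅, image_subset_iff.2 t1, a2.image _, countable_empty,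
        fun _ _ _ _ E hE => ?_⟩
      obtain ⟨p, p1, p2⟩ := a3 E hE
      exact ⟨_, mem_image_of_mem _ p1, (t2 p1).2,
        fun x x1 x2 => p2 x (t3 p1 ▸ Finset.mem_sdiff.2 ⟨x1, x2⟩)⟩
    · simp only [Lg, not_forall] at h
      obtain ⟨K, c1, c2⟩ := h
      exact ⟨∅, K, empty_subset _, countable_empty, c1, fun t t1 t2 h => absurd
        ⟨_, ⟨t, t1, t2, rfl⟩, fun x hx => h x (Finset.mem_sdiff.1 hx).1 (Finset.mem_sdiff.1 hx).2⟩ c2⟩
  choose A K a1 a2 a3 a4 using h3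
  obtain ⟨H, H1, -, H3, -⟩ := hull (fun r : Finset X => ⋃ F ∈ r.powerset, ⋃ Q ∈ r.powerset,
    ⋃ n, K F Q n) fun r => r.powerset.countable_toSet.biUnion fun F _ =>
      r.powerset.countable_toSet.biUnion fun Q _ => countable_iUnion (a3 F Q)
  have hM := cfin (H1 ∅ countable_empty)
  refine ⟨⋃ r ∈ {F : Finset X | ↑F ⊆ H ∅}, ⋃ Q ∈ {F : Finset X | ↑F ⊆ H ∅}, ⋃ n, A r Q n,
    iUnion₂_subset fun r _ => iUnion₂_subset fun Q _ => iUnion_subset (a1 r Q),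
    hM.biUnion fun r _ => hM.biUnion fun Q _ => countable_iUnion (a2 r Q), fun t ht => ?_⟩
  have t1 := h2 t ht (t ∩ H ∅) inter_subset_left
  have f1 : ↑((F (t ∩ H ∅)).filter (· ∈ H ∅)) ⊆ H ∅ := fun x hx => (Finset.mem_filter.1 hx).2
  have f2 : ↑(P (t ∩ H ∅)) ⊆ H ∅ := fun x hx => ((h _ t1).2 x hx).2
  obtain ⟨a, c1, c2, c3⟩ := a4 _ _ _ _ t1 ⟨rfl, rfl⟩ (fun x x1 x2 x3 => x2 (Finset.mem_filter.2
    ⟨x1, H3 ∅ (_ ∪ _) (by rw [Finset.coe_union]; exact union_subset f1 f2) (mem_biUnion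
      (Finset.mem_powerset.2 Finset.subset_union_left) (mem_biUnion
        (Finset.mem_powerset.2 Finset.subset_union_right) (mem_iUnion.2 ⟨_, x3⟩)))⟩)) _ (h1 t ht)
  refine mem_biUnion (mem_biUnion f1 (mem_biUnion f2 (mem_iUnion.2 ⟨_, c1⟩)))
    ⟨fun x hx h4 => ?_, fun x hx => ((h _ t1).2 x (c2 ▸ hx)).1⟩
  by_cases h5 : x ∈ (F (t ∩ H ∅)).filter (· ∈ H ∅)
  · exact (h _ t1).1 x (Finset.mem_filter.1 h5).1 ⟨h4, f1 h5⟩
  · exact c3 x hx h5 h4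

inductive T : Type
  | leaf : T
  | node (f : ℕ → T) : T

def dsc (f : ℕ → T) (g : ℕ → Set T) : Prop :=
  ∀ n, ∀ s ⊆ g n, ∃ F P, s ∈ C F P ∧ {x | ∃ m, f m = x ∧ g m ∈ C F P}.Finite

def D : T → Set T
  | T.leaf => ∅
  | T.node f => {x | x ∈ range f ∧ dsc f fun n => D (f n)}

theorem ne (t : T) : ∀ f n, t = T.node f → f n ≠ t := by
  induction t with
  | leaf => intro f n h; cases h
  | node g ih =>
    intro f n h h1
    obtain rfl : g = f := T.node.inj h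
    exact ih n g n h1 rfl

theorem d1 (t : T) : t ∉ D t := by
  cases t with
  | leaf => exact id
  | node f => exact fun ⟨⟨n, h⟩, _⟩ => ne _ f n rfl h

theorem d2 (t : T) : (D t).Countable := by
  cases t with
  | leaf => exact countable_empty
  | node f => exact (countable_range f).mono fun _ h => h.1

theorem d3 (t : T) : Gd D (D t) := by
  cases t with
  | leaf => exact fun _ h => h.elim
  | node f =>
    rintro _ ⟨⟨n, rfl⟩, h⟩ s hs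
    obtain ⟨F, G, h1, h2⟩ := h n s hs
    refine ⟨F, G, h1, h2.subset ?_⟩
    rintro _ ⟨⟨⟨m, rfl⟩, -⟩, h3⟩
    exact ⟨m, rfl, h3⟩

theorem d4 {E : Set T} (h1 : E.Countable) (h2 : Gd D E) : ∃ t, D t = E := by
  rcases E.eq_empty_or_nonempty with rfl | h
  · exact ⟨T.leaf, rfl⟩
  obtain ⟨f, rfl⟩ := h1.exists_eq_range h
  refine ⟨T.node f, Subset.antisymm (fun _ h => h.1) fun x hx => ⟨hx, fun n s hs => ?_⟩⟩
  obtain ⟨F, G, h3, h4⟩ := h2 _ ⟨n, rfl⟩ s hs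
  refine ⟨F, G, h3, h4.subset ?_⟩
  rintro _ ⟨m, rfl, h5⟩
  exact ⟨⟨m, rfl⟩, h5⟩

theorem d5 (t : T) {u : Set T} (h : u ⊆ D t) : ∃ c, D c = u :=
  d4 ((d2 t).mono h) fun y hy s hs =>
    let ⟨F, P, h1, h2⟩ := d3 t y (h hy) s hs
    ⟨F, P, h1, h2.subset fun _ hx => ⟨h hx.1, hx.2⟩⟩

def sp (y : T → Bool) : Set T := {x | y x = true}

theorem spi : Function.Injective sp := fun _ _ h =>
  funext fun x => Bool.eq_iff_iff.2 (Set.ext_iff.1 h x)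

theorem sps (s : Set T) : ∃ y, sp y = s := by
  classical exact ⟨fun x => decide (x ∈ s), by simp [sp]⟩

abbrev Y : Type := {y : T → Bool // sp y ∈ range D}

theorem loc {U : Set Y} (hU : IsOpen U) {y : Y} (hy : y ∈ U) :
    ∃ F P, sp y.1 ∈ C F P ∧ ∀ z : Y, sp z.1 ∈ C F P → z ∈ U := by
  obtain ⟨V, hV, rfl⟩ := isOpen_induced_iff.1 hU
  obtain ⟨s, u, h1, h2⟩ := isOpen_pi_iff.1 hV y.1 hy
  refine ⟨s.filter (y.1 · = false), s.filter (y.1 · = true), ⟨by simp [sp], by simp [sp]⟩,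
    fun z hz => h2 fun j hj => ?_⟩
  have : z.1 j = y.1 j := by
    cases h : y.1 j
    · simpa [sp] using hz.1 j (Finset.mem_filter.2 ⟨hj, h⟩)
    · exact hz.2 j (Finset.mem_filter.2 ⟨hj, h⟩)
  rw [this]
  exact (h1 j hj).2

instance : LindelofSpace Y := by
  refine ⟨isLindelof_of_countable_subcover fun {ι} U hU hs => ?_⟩
  have h : ∀ t, ∃ F P, t ∈ range D → t ∈ C F P ∧ ∃ i, ∀ z : Y, sp z.1 ∈ C F P → z ∈ U i := by
    intro t
    by_cases h : t ∈ range D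
    · obtain ⟨y, rfl⟩ := sps t
      obtain ⟨i, hi⟩ := mem_iUnion.1 (hs (mem_univ ⟨y, h⟩))
      obtain ⟨F, G, h1, h2⟩ := loc (hU i) hi
      exact ⟨F, G, fun _ => ⟨h1, i, h2⟩⟩
    · exact ⟨∅, ∅, fun h1 => absurd h1 h⟩
  choose F G h using h
  choose h1 i h2 using h
  obtain ⟨A, a1, a2, a3⟩ := cov d2 (range D) (by rintro _ ⟨t, rfl⟩; exact d3 t)
    (by rintro _ ⟨t, rfl⟩ u hu; exact d5 t hu) F G h1
  have := a2.to_subtype
  refine ⟨range fun a : A => i a (a1 a.2), countable_range _, fun t _ => ?_⟩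
  obtain ⟨a, b1, b2⟩ := mem_iUnion₂.1 (a3 t.2)
  exact mem_biUnion (mem_range_self ⟨a, b1⟩) (h2 a (a1 b1) t b2)

theorem main : ∃ U : Y → Set Y, (∀ x, IsOpen (U x) ∧ x ∈ U x) ∧
    ∀ E : Set Y, IsClosed E → DiscreteTopology E → (⋃ x ∈ E, U x) ≠ Set.univ := by
  choose o ho using fun y : Y => y.2
  have oi : Function.Injective o := fun a b h =>
    Subtype.ext (spi ((ho a).symm.trans (h ▸ ho b)))
  refine ⟨fun x => {z | z.1 (o x) = false}, fun x => ⟨((continuous_apply (A := fun _ : T => Bool)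
    (o x)).comp continuous_subtype_val).isOpen_preimage {false} (isOpen_discrete _), by
      simpa [ho, sp] using d1 (o x)⟩, fun E e0 e1 e2 => ?_⟩
  obtain ⟨t, ht⟩ := d4 ((e0.isLindelof.countable e1).image o) (by
    rintro _ ⟨y, -, rfl⟩ s hs
    obtain ⟨w, rfl⟩ := sps s
    obtain ⟨V, v1, v2, v3⟩ : ∃ V : Set Y, IsOpen V ∧ ⟨w, d5 _ hs⟩ ∈ V ∧
        E ∩ V ⊆ {⟨w, d5 _ hs⟩} := by
      by_cases h : ⟨w, d5 _ hs⟩ ∈ E
      · obtain ⟨V, v1, v2⟩ := isOpen_induced_iff.1 (isOpen_discrete ({⟨_, h⟩} : Set E))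
        exact ⟨V, v1, show (⟨_, h⟩ : E) ∈ Subtype.val ⁻¹' V by rw [v2]; rfl, fun x hx =>
          congrArg Subtype.val (show (⟨x, hx.1⟩ : E) ∈ ({⟨_, h⟩} : Set E) from v2 ▸ hx.2)⟩
      · exact ⟨Eᶜ, e0.isOpen_compl, h, by simp⟩
    obtain ⟨F, P, h1, h2⟩ := loc v1 v2
    refine ⟨F, P, h1, ((finite_singleton (⟨w, d5 _ hs⟩ : Y)).image o).subset ?_⟩
    rintro _ ⟨⟨x, x1, rfl⟩, x2⟩
    exact mem_image_of_mem _ (v3 ⟨x1, h2 x (ho x ▸ x2)⟩))
  obtain ⟨w, hw⟩ := sps (D t)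
  obtain ⟨x, x1, x2⟩ := mem_iUnion₂.1 (e2 ▸ mem_univ (⟨w, t, hw.symm⟩ : Y) :
    _ ∈ ⋃ x ∈ E, {z : Y | z.1 (o x) = false})
  have : o x ∈ sp w := hw ▸ ht ▸ mem_image_of_mem o x1
  exact absurd (this.symm.trans x2) (by simp)

theorem para {X : Type} [TopologicalSpace X] [RegularSpace X] [LindelofSpace X] :
    ParacompactSpace X := ⟨fun α s hs hc => by
  classical
  rcases isEmpty_or_nonempty X with h | h
  · exact ⟨α, s, hs, hc, fun x => h.elim x, fun a => ⟨a, Subset.rfl⟩⟩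
  have h1 : ∀ x, ∃ a, ∃ V ∈ 𝓝 x, IsClosed V ∧ V ⊆ s a := fun x => by
    obtain ⟨a, ha⟩ := mem_iUnion.1 (hc ▸ mem_univ x)
    exact ⟨a, exists_mem_nhds_isClosed_subset ((hs a).mem_nhds ha)⟩
  choose a V v1 v2 v3 using h1
  obtain ⟨t, t1, -, t2⟩ := isLindelof_univ.elim_nhds_subcover (fun x => interior (V x))
    fun x _ => interior_mem_nhds.2 (v1 x)
  obtain ⟨x0⟩ := h
  obtain ⟨g, rfl⟩ := t1.exists_eq_range (by
    obtain ⟨y, hy, -⟩ := mem_iUnion₂.1 (t2 (mem_univ x0)); exact ⟨y, hy⟩)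
  replace t2 : ∀ x, ∃ n, x ∈ interior (V (g n)) := fun x => by simpa using t2 (mem_univ x)
  refine ⟨ℕ, fun n => s (a (g n)) \ ⋃ m ∈ Iio n, V (g m), fun n => (hs _).sdiff
    ((finite_Iio n).isClosed_biUnion fun m _ => v2 _), eq_univ_of_forall fun x => ?_,
    fun x => ?_, fun n => ⟨_, sdiff_subset⟩⟩
  · have h2 : ∃ n, x ∈ V (g n) := (t2 x).imp fun n h => interior_subset h
    refine mem_iUnion.2 ⟨Nat.find h2, v3 _ (Nat.find_spec h2), fun h => ?_⟩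
    obtain ⟨m, m1, m2⟩ := mem_iUnion₂.1 h
    exact Nat.find_min h2 m1 m2
  · obtain ⟨m, hm⟩ := t2 x
    exact ⟨V (g m), mem_interior_iff_mem_nhds.1 hm, (finite_Iic m).subset fun n ⟨y, y1, y2⟩ =>
      mem_Iic.2 (not_lt.1 fun h => y1.2 (mem_biUnion (mem_Iio.2 h) y2))⟩⟩

end Pool.Agent.H.MP_414e75_gt
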